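import Mathlib

set_option autoImplicit false

open Filter Topology
open scoped symmDiff

namespace Pool.Agent.Results.MP_91bf1e_al.TwistedRatioDepends

/-- The ball of radius `n`: elements of word length at most `n` with respect to `X ∪ X⁻¹`. -/
def ball {G : Type} [Group G] (X : Finset G) (n : ℕ) : Set G :=
  {g : G | ∃ l : List G, l.length ≤ n ∧ (∀ x ∈ l, x ∈ X ∨ x⁻¹ ∈ X) ∧ l.prod = g}

/-- The `φ`-conjugacy class of `y`: all `z * y * (φ z)⁻¹`. -/
def twistedClass {G : Type} [Group G] (φ : G →* G) (y : G) : Set G :=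
  {x : G | ∃ z : G, x = z * y * (φ z)⁻¹}

/-- The set of `φ`-conjugacy classes meeting the ball of radius `n`. -/
def classes {G : Type} [Group G] (φ : G →* G) (X : Finset G) (n : ℕ) : Set (Set G) :=
  {c : Set G | ∃ y ∈ ball X n, c = twistedClass φ y}

/-- The `φ`-twisted conjugacy ratio of `G` with respect to `X`. -/
noncomputable def tcr {G : Type} [Group G] (φ : G →* G) (X : Finset G) : ℝ :=
  limsup (fun n : ℕ => ((classes φ X n).ncard : ℝ) / ((ball X n).ncard : ℝ)) atTop

section General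

variable {G : Type} [Group G]

theorem ball_finite (X : Finset G) (n : ℕ) : (ball X n).Finite := by
  have hfin : Finite {x : G // x ∈ X ∨ x⁻¹ ∈ X} := by
    have h1 : {x : G | x ∈ X}.Finite := X.finite_toSet
    have h2 : {x : G | x⁻¹ ∈ X}.Finite := h1.preimage inv_injective.injOn
    exact (h1.union h2).to_subtype
  have h : (ball X n) ⊆ (fun l : List {x : G // x ∈ X ∨ x⁻¹ ∈ X} =>
      (l.map Subtype.val).prod) '' {l | l.length ≤ n} := by
    rintro g ⟨l, hl, hx, rfl⟩
    refine ⟨l.attach.map (fun a => ⟨a.1, hx a.1 a.2⟩), ?_, ?_⟩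
    · simpa using hl
    · simp only [List.map_map]
      congr 1
      exact List.attach_map_subtype_val l
  exact (Set.Finite.image _ (List.finite_length_le _ n)).subset h

theorem one_mem_ball (X : Finset G) (n : ℕ) : (1 : G) ∈ ball X n :=
  ⟨[], by simp, by simp, by simp⟩

theorem ball_mono (X : Finset G) {m n : ℕ} (h : m ≤ n) : ball X m ⊆ ball X n := by
  rintro g ⟨l, hl, hx, rfl⟩
  exact ⟨l, hl.trans h, hx, rfl⟩

theorem ball_ncard_pos (X : Finset G) (n : ℕ) : 0 < (ball X n).ncard := by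
  rw [Set.ncard_pos (ball_finite X n)]
  exact ⟨1, one_mem_ball X n⟩

theorem mul_mem_ball_succ (X : Finset G) (n : ℕ) (x g : G) (hx : x ∈ X ∨ x⁻¹ ∈ X)
    (hg : g ∈ ball X n) : x * g ∈ ball X (n + 1) := by
  obtain ⟨l, hl, hl', rfl⟩ := hg
  refine ⟨x :: l, by simp [hl], ?_, by simp⟩
  intro y hy
  rw [List.mem_cons] at hy
  rcases hy with rfl | hy
  · exact hx
  · exact hl' y hy

/-- Induction principle for balls. -/
theorem ball_induction (X : Finset G) (P : ℕ → G → Prop) (h0 : ∀ n, P n 1)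
    (hs : ∀ n x g, (x ∈ X ∨ x⁻¹ ∈ X) → P n g → P (n + 1) (x * g)) :
    ∀ n g, g ∈ ball X n → P n g := by
  rintro n g ⟨l, hl, hx, rfl⟩
  induction l generalizing n with
  | nil => simpa using h0 n
  | cons x l ih =>
    obtain ⟨k, rfl⟩ : ∃ k, n = k + 1 := ⟨n - 1, by simp at hl; omega⟩
    rw [List.prod_cons]
    apply hs
    · exact hx x (by simp)
    · exact ih k (by simpa using hl) (fun y hy => hx y (by simp [hy]))

theorem classes_finite (φ : G →* G) (X : Finset G) (n : ℕ) : (classes φ X n).Finite := by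
  have : classes φ X n = twistedClass φ '' ball X n := by
    ext c
    constructor
    · rintro ⟨y, hy, rfl⟩; exact ⟨y, hy, rfl⟩
    · rintro ⟨y, hy, rfl⟩; exact ⟨y, hy, rfl⟩
  rw [this]
  exact (ball_finite X n).image _

theorem classes_le (φ : G →* G) (X : Finset G) (n : ℕ) :
    (classes φ X n).ncard ≤ (ball X n).ncard := by
  have : classes φ X n = twistedClass φ '' ball X n := by
    ext c
    constructor
    · rintro ⟨y, hy, rfl⟩; exact ⟨y, hy, rfl⟩
    · rintro ⟨y, hy, rfl⟩; exact ⟨y, hy, rfl⟩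
  rw [this]
  exact Set.ncard_image_le (ball_finite X n)

theorem mem_twistedClass_self (φ : G →* G) (y : G) : y ∈ twistedClass φ y :=
  ⟨1, by simp⟩

end General

/-- translate of a finite set of integers -/
def sh (n : ℤ) (A : Finset ℤ) : Finset ℤ := A.map (Equiv.addRight n).toEmbedding

theorem mem_sh (n : ℤ) (A : Finset ℤ) (x : ℤ) : x ∈ sh n A ↔ x - n ∈ A := by
  unfold sh
  rw [Finset.mem_map_equiv]
  simp [sub_eq_add_neg]

/-- doubling -/
def dbl : ℤ ↪ ℤ := ⟨fun x => 2 * x, fun x y h => by simpa using h⟩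

theorem dbl_apply (x : ℤ) : dbl x = 2 * x := rfl

/-- The lamplighter group: `A` is the set of lit lamps, `m` the position of the lamplighter. -/
@[ext] structure Lamp where
  A : Finset ℤ
  m : ℤ
  deriving DecidableEq

namespace Lamp

instance : Mul Lamp := ⟨fun a b => ⟨b.A ∆ sh b.m a.A, a.m + b.m⟩⟩
instance : One Lamp := ⟨⟨∅, 0⟩⟩
instance : Inv Lamp := ⟨fun a => ⟨sh (-a.m) a.A, -a.m⟩⟩

theorem mul_def (a b : Lamp) : a * b = ⟨b.A ∆ sh b.m a.A, a.m + b.m⟩ := rfl
theorem one_def : (1 : Lamp) = ⟨∅, 0⟩ := rfl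
theorem inv_def (a : Lamp) : a⁻¹ = ⟨sh (-a.m) a.A, -a.m⟩ := rfl

instance : Group Lamp := Group.ofLeftAxioms
  (by
    intro a b c
    simp only [mul_def]
    ext x
    · simp only [Finset.mem_symmDiff, mem_sh]
      have : x - (b.m + c.m) = x - c.m - b.m := by ring
      rw [this]
      tauto
    · simp [add_assoc])
  (by
    intro a
    simp only [mul_def, one_def]
    ext x
    · simp [Finset.mem_symmDiff, mem_sh]
    · simp)
  (by
    intro a
    simp only [mul_def, one_def, inv_def]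
    ext x
    · simp [Finset.mem_symmDiff, mem_sh]
    · simp)

/-- move up -/
def t : Lamp := ⟨∅, 1⟩
/-- move up, switching the lamp passed -/
def u : Lamp := ⟨{0}, 1⟩

theorem t_mul (a : Lamp) : t * a = ⟨a.A, a.m + 1⟩ := by
  simp only [mul_def, t]
  ext x
  · simp [Finset.mem_symmDiff, mem_sh]
  · simp [add_comm]

theorem u_mul (a : Lamp) : u * a = ⟨a.A ∆ {a.m}, a.m + 1⟩ := by
  simp only [mul_def, u]
  ext x
  · simp [Finset.mem_symmDiff, mem_sh, sub_eq_zero]
  · simp [add_comm]

theorem tinv_mul (a : Lamp) : t⁻¹ * a = ⟨a.A, a.m - 1⟩ := by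
  rw [inv_mul_eq_iff_eq_mul, t_mul]
  ext <;> simp

theorem uinv_mul (a : Lamp) : u⁻¹ * a = ⟨a.A ∆ {a.m - 1}, a.m - 1⟩ := by
  rw [inv_mul_eq_iff_eq_mul, u_mul]
  ext <;> simp

/-- The generating set. -/
def S : Finset Lamp := {t, u}

theorem S_gen : Subgroup.closure (S : Set Lamp) = ⊤ := by
  rw [eq_top_iff]
  rintro ⟨A, m⟩ -
  set H := Subgroup.closure (S : Set Lamp)
  have ht : t ∈ H := Subgroup.subset_closure (by simp [S])
  have hu : u ∈ H := Subgroup.subset_closure (by simp [S])
  have h1 : ∀ (A : Finset ℤ) (m : ℤ), (⟨A, m + 1⟩ : Lamp) ∈ H ↔ (⟨A, m⟩ : Lamp) ∈ H := by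
    intro A m
    rw [← t_mul ⟨A, m⟩, Subgroup.mul_mem_cancel_left H ht]
  have h2 : ∀ (A : Finset ℤ) (m : ℤ),
      (⟨A ∆ {m}, m + 1⟩ : Lamp) ∈ H ↔ (⟨A, m⟩ : Lamp) ∈ H := by
    intro A m
    rw [← u_mul ⟨A, m⟩, Subgroup.mul_mem_cancel_left H hu]
  have h3 : ∀ (A : Finset ℤ) (m : ℤ), (⟨A, m⟩ : Lamp) ∈ H ↔ (⟨A, 0⟩ : Lamp) ∈ H := by
    intro A m
    induction m using Int.induction_on with
    | zero => rfl
    | succ n ih => rw [h1]; exact ih
    | pred n ih =>
      rw [← ih, ← h1]
      simp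
  have h4 : ∀ A : Finset ℤ, (⟨A, 0⟩ : Lamp) ∈ H := by
    intro A
    induction A using Finset.induction_on with
    | empty => exact H.one_mem
    | insert k A hk ih =>
      have h5 : insert k A = A ∆ {k} := by
        ext x
        simp only [Finset.mem_insert, Finset.mem_symmDiff, Finset.mem_singleton]
        by_cases hx : x = k
        · subst hx; simp [hk]
        · simp [hx]
      rw [h5, ← h3 _ (k + 1), h2, h3]
      exact ih
  exact (h3 A m).2 (h4 A)

theorem mem_ball (r : ℕ) (A : Finset ℤ) (hA : A ⊆ Finset.Ico (0 : ℤ) r) :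
    (⟨A, r⟩ : Lamp) ∈ ball S r := by
  induction r generalizing A with
  | zero =>
    have : A = ∅ := by simpa using hA
    subst this
    exact one_mem_ball S 0
  | succ r ih =>
    by_cases hr : (r : ℤ) ∈ A
    · have hA' : A.erase r ⊆ Finset.Ico (0 : ℤ) r := by
        intro x hx
        rw [Finset.mem_erase] at hx
        have := hA hx.2
        simp only [Finset.mem_Ico] at this ⊢
        push_cast at this
        exact ⟨this.1, by omega⟩
      have h1 := mul_mem_ball_succ S r u _ (Or.inl (by simp [S])) (ih _ hA')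
      convert h1 using 1
      rw [u_mul]
      ext x
      · simp only [Finset.mem_symmDiff, Finset.mem_erase, Finset.mem_singleton]
        by_cases hx : x = r
        · subst hx; simp [hr]
        · simp [hx]
      · simp
    · have hA' : A ⊆ Finset.Ico (0 : ℤ) r := by
        intro x hx
        have := hA hx
        simp only [Finset.mem_Ico] at this ⊢
        push_cast at this
        refine ⟨this.1, ?_⟩
        rcases lt_or_eq_of_le (Int.lt_add_one_iff.1 this.2) with h | h
        · exact h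
        · subst h; exact absurd hx hr
      have h1 := mul_mem_ball_succ S r t _ (Or.inl (by simp [S])) (ih _ hA')
      convert h1 using 1
      rw [t_mul]
      ext x <;> simp

/-- Description of the ball. -/
theorem ball_desc (n : ℕ) (a : Lamp) (ha : a ∈ ball S n) :
    ∃ p q : ℤ, 0 ≤ p ∧ 0 ≤ q ∧ -p ≤ a.m ∧ a.m ≤ q ∧ a.A ⊆ Finset.Ico (-p) q ∧
      2 * p + 2 * q - |a.m| ≤ n := by
  revert n a ha
  refine ball_induction S _ ?_ ?_
  · intro n
    refine ⟨0, 0, le_rfl, le_rfl, ?_, ?_, ?_, ?_⟩ <;> simp [one_def]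
  · rintro n x g hx ⟨p, q, hp, hq, hm1, hm2, hA, hl⟩
    have hup : ∀ B : Finset ℤ, B ⊆ g.A ∪ {g.m} → ∃ p q : ℤ, 0 ≤ p ∧ 0 ≤ q ∧ -p ≤ g.m + 1 ∧
        g.m + 1 ≤ q ∧ B ⊆ Finset.Ico (-p) q ∧ 2 * p + 2 * q - |g.m + 1| ≤ ((n + 1 : ℕ) : ℤ) := by
      intro B hB
      by_cases h : g.m + 1 ≤ q
      · refine ⟨p, q, hp, hq, by omega, h, ?_, ?_⟩
        · intro y hy
          have := hB hy
          simp only [Finset.mem_union, Finset.mem_singleton] at this
          rcases this with h' | rfl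
          · exact hA h'
          · rw [Finset.mem_Ico]; omega
        · push_cast
          have h1 : |g.m| ≤ |g.m + 1| + 1 := by
            have := abs_sub_abs_le_abs_sub g.m (g.m + 1)
            simp at this
            linarith
          linarith
      · refine ⟨p, q + 1, hp, by omega, by omega, by omega, ?_, ?_⟩
        · intro y hy
          have := hB hy
          simp only [Finset.mem_union, Finset.mem_singleton] at this
          rcases this with h' | rfl
          · have := hA h'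
            rw [Finset.mem_Ico] at this ⊢; omega
          · rw [Finset.mem_Ico]; omega
        · push_cast
          have h2 : g.m = q := by omega
          rw [h2] at hl ⊢
          rw [abs_of_nonneg hq] at hl
          rw [abs_of_nonneg (by omega)]
          linarith
    have hdn : ∀ B : Finset ℤ, B ⊆ g.A ∪ {g.m - 1} → ∃ p q : ℤ, 0 ≤ p ∧ 0 ≤ q ∧ -p ≤ g.m - 1 ∧
        g.m - 1 ≤ q ∧ B ⊆ Finset.Ico (-p) q ∧ 2 * p + 2 * q - |g.m - 1| ≤ ((n + 1 : ℕ) : ℤ) := by
      intro B hB
      by_cases h : -p ≤ g.m - 1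
      · refine ⟨p, q, hp, hq, h, by omega, ?_, ?_⟩
        · intro y hy
          have := hB hy
          simp only [Finset.mem_union, Finset.mem_singleton] at this
          rcases this with h' | rfl
          · exact hA h'
          · rw [Finset.mem_Ico]; omega
        · push_cast
          have h1 : |g.m| ≤ |g.m - 1| + 1 := by
            have := abs_sub_abs_le_abs_sub g.m (g.m - 1)
            simp at this
            linarith
          linarith
      · refine ⟨p + 1, q, by omega, hq, by omega, by omega, ?_, ?_⟩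
        · intro y hy
          have := hB hy
          simp only [Finset.mem_union, Finset.mem_singleton] at this
          rcases this with h' | rfl
          · have := hA h'
            rw [Finset.mem_Ico] at this ⊢; omega
          · rw [Finset.mem_Ico]; omega
        · push_cast
          have h2 : g.m = -p := by omega
          rw [h2] at hl ⊢
          rw [abs_of_nonpos (by omega)] at hl
          rw [abs_of_nonpos (by omega)]
          linarith
    have hsub : ∀ (C : Finset ℤ) (k : ℤ), C ∆ {k} ⊆ C ∪ {k} := by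
      intro C k y hy
      simp only [Finset.mem_symmDiff, Finset.mem_singleton] at hy
      simp only [Finset.mem_union, Finset.mem_singleton]
      tauto
    have hx' : x = t ∨ x = u ∨ x = t⁻¹ ∨ x = u⁻¹ := by
      simp only [S, Finset.mem_insert, Finset.mem_singleton] at hx
      rcases hx with (h | h) | (h | h)
      · exact Or.inl h
      · exact Or.inr (Or.inl h)
      · right; right; left; rw [← h, inv_inv]
      · right; right; right; rw [← h, inv_inv]
    rcases hx' with rfl | rfl | rfl | rfl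
    · rw [t_mul]; exact hup _ Finset.subset_union_left
    · rw [u_mul]; exact hup _ (hsub _ _)
    · rw [tinv_mul]; exact hdn _ Finset.subset_union_left
    · rw [uinv_mul]; exact hdn _ (hsub _ _)


theorem sum_sq (n : ℕ) : (∑ j ∈ Finset.range (n + 1), (j + 1) ^ 2 * 2 ^ (n - j)) +
    (n ^ 2 + 6 * n + 11) = 12 * 2 ^ n := by
  induction n with
  | zero => simp
  | succ n ih =>
    rw [Finset.sum_range_succ]
    have h : ∑ j ∈ Finset.range (n + 1), (j + 1) ^ 2 * 2 ^ (n + 1 - j) =
        2 * ∑ j ∈ Finset.range (n + 1), (j + 1) ^ 2 * 2 ^ (n - j) := by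
      rw [Finset.mul_sum]
      refine Finset.sum_congr rfl fun j hj => ?_
      have hj' : j ≤ n := by
        have := Finset.mem_range.1 hj; omega
      have e : n + 1 - j = (n - j) + 1 := by omega
      rw [e, pow_succ]; ring
    rw [h, pow_succ 2 n]
    simp only [Nat.sub_self, pow_zero, mul_one]
    nlinarith [ih]

/-- The ball of radius `n` has at most `24 * 2 ^ n` elements. -/
theorem ball_card_le (n : ℕ) : (ball S n).ncard ≤ 24 * 2 ^ n := by
  classical
  let F : ℕ → Bool × ℕ × ℕ → Finset Lamp := fun j s =>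
    if s.1 then ((Finset.Ico (-(s.2.1 : ℤ)) ((n : ℤ) - j - s.2.1)).powerset).image
      (fun A => (⟨A, (n : ℤ) - j - s.2.1 - s.2.2⟩ : Lamp))
    else ((Finset.Ico (-((n : ℤ) - j - s.2.1)) (s.2.1 : ℤ)).powerset).image
      (fun A => (⟨A, -((n : ℤ) - j - s.2.1 - s.2.2)⟩ : Lamp))
  let I : ℕ → Finset (Bool × ℕ × ℕ) := fun j =>
    Finset.univ ×ˢ (Finset.range (j + 1) ×ˢ Finset.range (j + 1))
  have hsub : ball S n ⊆ ((Finset.range (n + 1)).biUnion fun j => (I j).biUnion (F j) :
      Finset Lamp) := by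
    intro a ha
    obtain ⟨p, q, hp, hq, h1, h2, hA, hl⟩ := ball_desc n a ha
    simp only [Finset.coe_biUnion, Set.mem_iUnion, Finset.mem_coe, Finset.mem_range]
    have habs : |a.m| ≤ p + q := by
      rw [abs_le]; constructor <;> omega
    obtain ⟨j, hj⟩ : ∃ j : ℕ, (j : ℤ) = n - (p + q) :=
      ⟨(n - (p + q)).toNat, Int.toNat_of_nonneg (by omega)⟩
    refine ⟨j, by omega, ?_⟩
    by_cases hm : 0 ≤ a.m
    · rw [abs_of_nonneg hm] at hl
      obtain ⟨p', hp'⟩ : ∃ p' : ℕ, (p' : ℤ) = p := ⟨p.toNat, Int.toNat_of_nonneg hp⟩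
      obtain ⟨r, hr⟩ : ∃ r : ℕ, (r : ℤ) = q - a.m :=
        ⟨(q - a.m).toNat, Int.toNat_of_nonneg (by omega)⟩
      refine ⟨(true, p', r), ?_, ?_⟩
      · simp only [I, Finset.mem_product, Finset.mem_univ, true_and, Finset.mem_range]
        omega
      · simp only [F, if_true, Finset.mem_image, Finset.mem_powerset]
        refine ⟨a.A, ?_, ?_⟩
        · have e1 : (n : ℤ) - j - p' = q := by omega
          rw [e1, hp']; exact hA
        · ext
          · simp
          · simp only; omega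
    · push Not at hm
      rw [abs_of_neg hm] at hl
      obtain ⟨q', hq'⟩ : ∃ q' : ℕ, (q' : ℤ) = q := ⟨q.toNat, Int.toNat_of_nonneg hq⟩
      obtain ⟨r, hr⟩ : ∃ r : ℕ, (r : ℤ) = p + a.m :=
        ⟨(p + a.m).toNat, Int.toNat_of_nonneg (by omega)⟩
      refine ⟨(false, q', r), ?_, ?_⟩
      · simp only [I, Finset.mem_product, Finset.mem_univ, true_and, Finset.mem_range]
        omega
      · simp only [F, Bool.false_eq_true, if_false, Finset.mem_image, Finset.mem_powerset]
        refine ⟨a.A, ?_, ?_⟩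
        · have e1 : (n : ℤ) - j - q' = p := by omega
          rw [e1, hq']; exact hA
        · ext
          · simp
          · simp only; omega
  have hcard : ∀ j ∈ Finset.range (n + 1), ∀ s ∈ I j, (F j s).card ≤ 2 ^ (n - j) := by
    intro j hj s _
    have hj' : j ≤ n := by
      have := Finset.mem_range.1 hj; omega
    simp only [F]
    split_ifs
    · refine Finset.card_image_le.trans ?_
      rw [Finset.card_powerset, Int.card_Ico]
      apply Nat.pow_le_pow_right (by norm_num)
      omega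
    · refine Finset.card_image_le.trans ?_
      rw [Finset.card_powerset, Int.card_Ico]
      apply Nat.pow_le_pow_right (by norm_num)
      omega
  have h1 : (ball S n).ncard ≤ ((Finset.range (n + 1)).biUnion fun j => (I j).biUnion (F j)).card := by
    rw [← Set.ncard_coe_finset]
    exact Set.ncard_le_ncard hsub (Finset.finite_toSet _)
  have h2 : ((Finset.range (n + 1)).biUnion fun j => (I j).biUnion (F j)).card ≤
      ∑ j ∈ Finset.range (n + 1), 2 * ((j + 1) ^ 2 * 2 ^ (n - j)) := by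
    refine Finset.card_biUnion_le.trans (Finset.sum_le_sum fun j hj => ?_)
    refine Finset.card_biUnion_le.trans ?_
    refine (Finset.sum_le_card_nsmul _ _ _ (hcard j hj)).trans ?_
    simp only [I, Finset.card_product, Finset.card_univ, Fintype.card_bool, Finset.card_range,
      smul_eq_mul]
    apply le_of_eq; ring
  have h3 := sum_sq n
  rw [← Finset.mul_sum] at h2
  omega

/-- The endomorphism doubling all positions. -/
def dblHom : Lamp →* Lamp where
  toFun a := ⟨a.A.map dbl, 2 * a.m⟩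
  map_one' := by
    simp [one_def]
  map_mul' a b := by
    simp only [mul_def]
    ext x
    · simp only [Finset.mem_symmDiff, mem_sh, Finset.mem_map, dbl_apply]
      have key : ∀ (C : Finset ℤ) (y : ℤ), (∃ c, c ∈ C ∧ 2 * c = y) ↔ (y % 2 = 0 ∧ y / 2 ∈ C) := by
        intro C y
        constructor
        · rintro ⟨c, hc, rfl⟩
          refine ⟨by omega, ?_⟩
          have : 2 * c / 2 = c := by omega
          rw [this]; exact hc
        · rintro ⟨h1, h2⟩
          exact ⟨y / 2, h2, by omega⟩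
      have key2 : (∃ c, ((c ∈ b.A ∧ c - b.m ∉ a.A) ∨ (c - b.m ∈ a.A ∧ c ∉ b.A)) ∧ 2 * c = x) ↔
          (x % 2 = 0 ∧ ((x / 2 ∈ b.A ∧ x / 2 - b.m ∉ a.A) ∨ (x / 2 - b.m ∈ a.A ∧ x / 2 ∉ b.A))) := by
        constructor
        · rintro ⟨c, hc, rfl⟩
          refine ⟨by omega, ?_⟩
          have : 2 * c / 2 = c := by omega
          rw [this]; exact hc
        · rintro ⟨h1, h2⟩
          exact ⟨x / 2, h2, by omega⟩
      rw [key, key, key2]
      have e1 : (x - 2 * b.m) % 2 = 0 ↔ x % 2 = 0 := by omega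
      have e2 : (x - 2 * b.m) / 2 = x / 2 - b.m := by omega
      rw [e1, e2]
      tauto
    · simp [mul_add]

theorem mem_dbl (C : Finset ℤ) (y : ℤ) : 2 * y ∈ C.map dbl ↔ y ∈ C := by
  rw [← dbl_apply, Finset.mem_map']

/-- The combinatorial core: a coboundary supported in `[0, n)` vanishes. -/
theorem core (n : ℕ) (Z : Finset ℤ) (hZ : sh n Z ∆ Z.map dbl ⊆ Finset.Ico (0 : ℤ) n) :
    sh n Z ∆ Z.map dbl = ∅ := by
  have hmem : ∀ x, x ∈ sh n Z ∆ Z.map dbl ↔
      (x - n ∈ Z ∧ x ∉ Z.map dbl) ∨ (x ∈ Z.map dbl ∧ x - n ∉ Z) := by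
    intro x; rw [Finset.mem_symmDiff, mem_sh]
  -- all elements of Z are at most n
  have hle : ∀ z ∈ Z, z ≤ n := by
    intro z hz
    by_contra hcon
    push Not at hcon
    have hne : Z.Nonempty := ⟨z, hz⟩
    set β := Z.max' hne with hβ
    have hβZ : β ∈ Z := Z.max'_mem hne
    have hzβ : z ≤ β := Z.le_max' z hz
    have h2 : 2 * β ∈ sh n Z ∆ Z.map dbl := by
      rw [hmem]
      right
      refine ⟨(mem_dbl Z β).2 hβZ, fun h => ?_⟩
      have := Z.le_max' _ h
      omega
    have := hZ h2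
    rw [Finset.mem_Ico] at this
    omega
  -- nothing below n
  have hge : ∀ z ∈ Z, z = n := by
    by_contra hcon
    push Not at hcon
    obtain ⟨z, hz, hzn⟩ := hcon
    set Z' := Z.erase (n : ℤ) with hZ'
    have hne : Z'.Nonempty := ⟨z, Finset.mem_erase.2 ⟨hzn, hz⟩⟩
    have hβZ' := Z'.max'_mem hne
    set β := Z'.max' hne with hβ
    have hβZ : β ∈ Z := Finset.mem_of_mem_erase hβZ'
    have hβn : β ≠ n := Finset.ne_of_mem_erase hβZ'
    have hβlt : β < n := lt_of_le_of_ne (hle β hβZ) hβn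
    have h1 : (n : ℤ) + β ∈ sh n Z ∆ Z.map dbl := by
      rw [hmem]
      left
      refine ⟨by simpa using hβZ, fun h => ?_⟩
      simp only [Finset.mem_map, dbl_apply] at h
      obtain ⟨c, hc, hc2⟩ := h
      have hc' : c ∈ Z' := Finset.mem_erase.2 ⟨by omega, hc⟩
      have := Z'.le_max' _ hc'
      omega
    have h1' := hZ h1
    rw [Finset.mem_Ico] at h1'
    have hαZ' := Z'.min'_mem hne
    set α := Z'.min' hne with hα
    have hαZ : α ∈ Z := Finset.mem_of_mem_erase hαZ'
    have hαβ : α ≤ β := Z'.min'_le _ hβZ'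
    have h2 : 2 * α ∈ sh n Z ∆ Z.map dbl := by
      rw [hmem]
      right
      refine ⟨(mem_dbl Z α).2 hαZ, fun h => ?_⟩
      have h3 : 2 * α - n ∈ Z' := Finset.mem_erase.2 ⟨by omega, h⟩
      have := Z'.min'_le _ h3
      omega
    have := hZ h2
    rw [Finset.mem_Ico] at this
    omega
  rw [Finset.eq_empty_iff_forall_notMem]
  intro x hx
  rw [hmem] at hx
  rcases hx with ⟨h1, h2⟩ | ⟨h1, h2⟩
  · have h3 := hge _ h1
    apply h2
    have hx : x = 2 * (n : ℤ) := by omega
    rw [hx, mem_dbl]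
    have : x - n = n := h3
    rw [this] at h1
    exact h1
  · simp only [Finset.mem_map, dbl_apply] at h1
    obtain ⟨c, hc, hc2⟩ := h1
    have h3 := hge _ hc
    apply h2
    have : x - n = c := by omega
    rw [this]; exact hc

/-- Elements `(A, n)` with `A ⊆ [0, n)` represent pairwise distinct twisted classes. -/
theorem inj_classes (n : ℕ) (A B : Finset ℤ) (hA : A ⊆ Finset.Ico (0 : ℤ) n)
    (hB : B ⊆ Finset.Ico (0 : ℤ) n) (z : Lamp)
    (h : (⟨A, n⟩ : Lamp) = z * ⟨B, n⟩ * (dblHom z)⁻¹) : A = B := by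
  rw [eq_mul_inv_iff_mul_eq] at h
  have hm := congrArg Lamp.m h
  have hAA := congrArg Lamp.A h
  simp only [mul_def, dblHom, MonoidHom.coe_mk, OneHom.coe_mk] at hm hAA
  have hz : z.m = 0 := by omega
  have hsh : sh (2 * z.m) A = A := by
    ext x; rw [mem_sh, hz]; simp
  rw [hsh] at hAA
  have hD : sh n z.A ∆ z.A.map dbl = A ∆ B := by
    ext x
    have := Finset.ext_iff.1 hAA x
    simp only [Finset.mem_symmDiff] at this ⊢
    tauto
  have hsub : sh n z.A ∆ z.A.map dbl ⊆ Finset.Ico (0 : ℤ) n := by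
    rw [hD]
    intro x hx
    rw [Finset.mem_symmDiff] at hx
    rcases hx with hx | hx
    · exact hA hx.1
    · exact hB hx.1
  have hE := core n z.A hsub
  rw [hD] at hE
  ext x
  have hx : x ∉ A ∆ B := by rw [hE]; simp
  rw [Finset.mem_symmDiff] at hx
  tauto


/-- The second generating set of the lamplighter group: words of length one and two in `S`. -/
def P : Finset Lamp := {t, u, t * t, t * u, u * t, u * u}

theorem S_sub_P : S ⊆ P := by
  intro x hx
  simp only [S, P, Finset.mem_insert, Finset.mem_singleton] at hx ⊢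
  tauto

theorem step (r : ℕ) (A : Finset ℤ) (hA : A ⊆ Finset.Ico (0 : ℤ) ((r : ℤ) + 1)) :
    ∃ s ∈ S, ∃ A' : Finset ℤ, A' ⊆ Finset.Ico (0 : ℤ) r ∧
      (⟨A, (r : ℤ) + 1⟩ : Lamp) = s * ⟨A', r⟩ := by
  by_cases hr : (r : ℤ) ∈ A
  · refine ⟨u, by simp [S], A.erase r, ?_, ?_⟩
    · intro x hx
      rw [Finset.mem_erase] at hx
      have := hA hx.2
      simp only [Finset.mem_Ico] at this ⊢
      exact ⟨this.1, by omega⟩
    · rw [u_mul]
      ext x
      · simp only [Finset.mem_symmDiff, Finset.mem_erase, Finset.mem_singleton]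
        by_cases hx : x = r
        · subst hx; simp [hr]
        · simp [hx]
      · rfl
  · refine ⟨t, by simp [S], A, ?_, ?_⟩
    · intro x hx
      have := hA hx
      simp only [Finset.mem_Ico] at this ⊢
      refine ⟨this.1, ?_⟩
      rcases lt_or_eq_of_le (Int.lt_add_one_iff.1 this.2) with h | h
      · exact h
      · subst h; exact absurd hx hr
    · rw [t_mul]

theorem mem_ball_P (r : ℕ) (A : Finset ℤ) (hA : A ⊆ Finset.Ico (0 : ℤ) ((2 * r : ℕ) : ℤ)) :
    (⟨A, ((2 * r : ℕ) : ℤ)⟩ : Lamp) ∈ ball P r := by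
  induction r generalizing A with
  | zero =>
    have : A = ∅ := by simpa using hA
    subst this
    exact one_mem_ball P 0
  | succ r ih =>
    have e1 : ((2 * (r + 1) : ℕ) : ℤ) = ((2 * r + 1 : ℕ) : ℤ) + 1 := by push_cast; ring
    rw [e1] at hA ⊢
    obtain ⟨s1, hs1, A1, hA1, h1⟩ := step (2 * r + 1) A hA
    have e2 : ((2 * r + 1 : ℕ) : ℤ) = ((2 * r : ℕ) : ℤ) + 1 := by push_cast; ring
    rw [e2] at hA1
    obtain ⟨s2, hs2, A2, hA2, h2⟩ := step (2 * r) A1 hA1
    rw [h1, e2, h2, ← mul_assoc]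
    refine mul_mem_ball_succ P r _ _ (Or.inl ?_) (ih A2 hA2)
    simp only [S, Finset.mem_insert, Finset.mem_singleton] at hs1 hs2
    simp only [P, Finset.mem_insert, Finset.mem_singleton]
    rcases hs1 with rfl | rfl <;> rcases hs2 with rfl | rfl <;> simp

end Lamp

section General2

variable {G : Type} [Group G]

theorem inv_mem_ball (X : Finset G) (n : ℕ) (g : G) (hg : g ∈ ball X n) : g⁻¹ ∈ ball X n := by
  obtain ⟨l, hl, hx, rfl⟩ := hg
  refine ⟨(l.map (fun x => x⁻¹)).reverse, by simpa using hl, ?_, (List.prod_inv_reverse l).symm⟩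
  intro x hx'
  rw [List.mem_reverse, List.mem_map] at hx'
  obtain ⟨y, hy, rfl⟩ := hx'
  rcases hx y hy with h | h
  · right; simpa using h
  · left; exact h

theorem mul_mem_ball (X : Finset G) (m n : ℕ) (g h : G) (hg : g ∈ ball X m) (hh : h ∈ ball X n) :
    g * h ∈ ball X (m + n) := by
  obtain ⟨l, hl, hx, rfl⟩ := hg
  obtain ⟨l', hl', hx', rfl⟩ := hh
  refine ⟨l ++ l', by simp; omega, ?_, by simp⟩
  intro x hx''
  rw [List.mem_append] at hx''
  rcases hx'' with h | h
  · exact hx x h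
  · exact hx' x h

theorem mem_ball_one (X : Finset G) (g : G) (hg : g ∈ X) : g ∈ ball X 1 :=
  ⟨[g], by simp, by simp [hg], by simp⟩

end General2

namespace Lamp

theorem P_sub_ball (x : Lamp) (hx : x ∈ P ∨ x⁻¹ ∈ P) : x ∈ ball S 2 := by
  have key : ∀ y ∈ P, y ∈ ball S 2 := by
    intro y hy
    have ht : t ∈ ball S 1 := mem_ball_one S t (by simp [S])
    have hu : u ∈ ball S 1 := mem_ball_one S u (by simp [S])
    simp only [P, Finset.mem_insert, Finset.mem_singleton] at hy
    rcases hy with rfl | rfl | rfl | rfl | rfl | rfl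
    · exact ball_mono S (by norm_num) ht
    · exact ball_mono S (by norm_num) hu
    · exact mul_mem_ball S 1 1 _ _ ht ht
    · exact mul_mem_ball S 1 1 _ _ ht hu
    · exact mul_mem_ball S 1 1 _ _ hu ht
    · exact mul_mem_ball S 1 1 _ _ hu hu
  rcases hx with h | h
  · exact key x h
  · have := inv_mem_ball S 2 _ (key _ h)
    rwa [inv_inv] at this

end Lamp

open Lamp

/-- First generating set of `Lamp × Lamp`. -/
def X : Finset (Lamp × Lamp) := P.image (fun a => (a, (1 : Lamp))) ∪ S.image (fun b => ((1 : Lamp), b))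

/-- Second generating set of `Lamp × Lamp`. -/
def Y : Finset (Lamp × Lamp) := S.image (fun a => (a, (1 : Lamp))) ∪ P.image (fun b => ((1 : Lamp), b))

/-- The endomorphism: doubling on the first factor, trivial on the second. -/
def phi : Lamp × Lamp →* Lamp × Lamp :=
  (dblHom.comp (MonoidHom.fst Lamp Lamp)).prod 1

theorem phi_apply (z : Lamp × Lamp) : phi z = (dblHom z.1, 1) := rfl

theorem gen_aux (A B : Finset Lamp) (hA : Subgroup.closure (A : Set Lamp) = ⊤)
    (hB : Subgroup.closure (B : Set Lamp) = ⊤) :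
    Subgroup.closure ((A.image (fun a => (a, (1 : Lamp))) ∪ B.image (fun b => ((1 : Lamp), b)) :
      Finset (Lamp × Lamp)) : Set (Lamp × Lamp)) = ⊤ := by
  rw [eq_top_iff]
  rintro ⟨a, b⟩ -
  set H := Subgroup.closure ((A.image (fun a => (a, (1 : Lamp))) ∪
    B.image (fun b => ((1 : Lamp), b)) : Finset (Lamp × Lamp)) : Set (Lamp × Lamp))
  have h1 : ∀ a, (a, (1 : Lamp)) ∈ H := by
    intro a
    have : Subgroup.closure (A : Set Lamp) ≤ H.comap (MonoidHom.inl Lamp Lamp) := by
      rw [Subgroup.closure_le]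
      intro x hx
      refine Subgroup.subset_closure ?_
      simp only [Finset.coe_union, Finset.coe_image, Set.mem_union, Set.mem_image,
        Finset.mem_coe]
      exact Or.inl ⟨x, hx, rfl⟩
    rw [hA] at this
    exact this (Subgroup.mem_top a)
  have h2 : ∀ b, ((1 : Lamp), b) ∈ H := by
    intro b
    have : Subgroup.closure (B : Set Lamp) ≤ H.comap (MonoidHom.inr Lamp Lamp) := by
      rw [Subgroup.closure_le]
      intro x hx
      refine Subgroup.subset_closure ?_
      simp only [Finset.coe_union, Finset.coe_image, Set.mem_union, Set.mem_image,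
        Finset.mem_coe]
      exact Or.inr ⟨x, hx, rfl⟩
    rw [hB] at this
    exact this (Subgroup.mem_top b)
  have := H.mul_mem (h1 a) (h2 b)
  simpa using this

theorem P_gen : Subgroup.closure (P : Set Lamp) = ⊤ := by
  rw [eq_top_iff, ← S_gen]
  exact Subgroup.closure_mono (by exact_mod_cast S_sub_P)

/-- A ball of `Lamp × Lamp` in terms of balls of the factors. -/
theorem ball_prod (A B : Finset Lamp) (α β : ℕ) (hA : ∀ x, (x ∈ A ∨ x⁻¹ ∈ A) → x ∈ ball S α)
    (hB : ∀ x, (x ∈ B ∨ x⁻¹ ∈ B) → x ∈ ball S β) (n : ℕ) (g : Lamp × Lamp)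
    (hg : g ∈ ball (A.image (fun a => (a, (1 : Lamp))) ∪ B.image (fun b => ((1 : Lamp), b))) n) :
    ∃ j ≤ n, g.1 ∈ ball S (α * (n - j)) ∧ g.2 ∈ ball S (β * j) := by
  revert n g hg
  refine ball_induction _ _ ?_ ?_
  · intro n
    exact ⟨0, Nat.zero_le _, one_mem_ball S _, one_mem_ball S _⟩
  · rintro n x g hx ⟨j, hj, h1, h2⟩
    have hx' : (∃ a, (a ∈ A ∨ a⁻¹ ∈ A) ∧ x = (a, 1)) ∨ (∃ b, (b ∈ B ∨ b⁻¹ ∈ B) ∧ x = (1, b)) := by
      simp only [Finset.mem_union, Finset.mem_image] at hx
      rcases hx with (⟨a, ha, h⟩ | ⟨b, hb, h⟩) | (⟨a, ha, h⟩ | ⟨b, hb, h⟩)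
      · exact Or.inl ⟨a, Or.inl ha, h.symm⟩
      · exact Or.inr ⟨b, Or.inl hb, h.symm⟩
      · refine Or.inl ⟨a⁻¹, Or.inr (by simpa using ha), ?_⟩
        rw [← inv_inv x, ← h]; simp
      · refine Or.inr ⟨b⁻¹, Or.inr (by simpa using hb), ?_⟩
        rw [← inv_inv x, ← h]; simp
    rcases hx' with ⟨a, ha, rfl⟩ | ⟨b, hb, rfl⟩
    · refine ⟨j, by omega, ?_, ?_⟩
      · have := mul_mem_ball S _ _ _ _ (hA a ha) h1
        have e : α * (n + 1 - j) = α + α * (n - j) := by
          have : n + 1 - j = (n - j) + 1 := by omega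
          rw [this]; ring
        rw [e]; exact this
      · simpa using h2
    · refine ⟨j + 1, by omega, ?_, ?_⟩
      · have e : n + 1 - (j + 1) = n - j := by omega
        rw [e]; simpa using h1
      · have := mul_mem_ball S _ _ _ _ (hB b hb) h2
        have e : β * (j + 1) = β + β * j := by ring
        rw [e]; exact this

theorem geom (n : ℕ) : (∑ j ∈ Finset.range (n + 1), 2 ^ (2 * (n - j)) * 2 ^ j) + 2 ^ n = 2 * 4 ^ n := by
  induction n with
  | zero => simp
  | succ n ih =>
    rw [Finset.sum_range_succ]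
    have h : ∑ j ∈ Finset.range (n + 1), 2 ^ (2 * (n + 1 - j)) * 2 ^ j =
        4 * ∑ j ∈ Finset.range (n + 1), 2 ^ (2 * (n - j)) * 2 ^ j := by
      rw [Finset.mul_sum]
      refine Finset.sum_congr rfl fun j hj => ?_
      have hj' : j ≤ n := by
        have := Finset.mem_range.1 hj; omega
      have e : 2 * (n + 1 - j) = 2 * (n - j) + 2 := by omega
      rw [e, pow_add]; ring
    rw [h]
    simp only [Nat.sub_self, mul_zero, pow_zero, one_mul]
    have e4 : (4 : ℕ) ^ (n + 1) = 4 * 4 ^ n := by rw [pow_succ]; ring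
    have e2 : (2 : ℕ) ^ (n + 1) = 2 * 2 ^ n := by rw [pow_succ]; ring
    rw [e4, e2]
    omega

/-- Size of the ball for the first generating set. -/
theorem ball_X_card_le (n : ℕ) : (ball X n).ncard ≤ 1152 * 4 ^ n := by
  classical
  have hS : ∀ x : Lamp, (x ∈ S ∨ x⁻¹ ∈ S) → x ∈ ball S 1 := by
    intro x hx
    exact ⟨[x], by simp, by simpa using hx, by simp⟩
  have hsub : ball X n ⊆ ⋃ j ∈ Finset.range (n + 1), (ball S (2 * (n - j))) ×ˢ (ball S j) := by
    intro g hg
    obtain ⟨j, hj, h1, h2⟩ := ball_prod P S 2 1 P_sub_ball hS n g hg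
    simp only [Set.mem_iUnion, Finset.mem_range]
    refine ⟨j, by omega, h1, ?_⟩
    rw [one_mul] at h2; exact h2
  have hfin : ∀ j, ((ball S (2 * (n - j))) ×ˢ (ball S j)).Finite := fun j =>
    (ball_finite S _).prod (ball_finite S _)
  have h1 : (ball X n).ncard ≤
      ∑ j ∈ Finset.range (n + 1), ((ball S (2 * (n - j))) ×ˢ (ball S j)).ncard := by
    refine (Set.ncard_le_ncard hsub ?_).trans ?_
    · exact Set.Finite.biUnion (Finset.finite_toSet _) (fun j _ => hfin j)
    · exact Finset.set_ncard_biUnion_le _ _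
  have h2 : ∑ j ∈ Finset.range (n + 1), ((ball S (2 * (n - j))) ×ˢ (ball S j)).ncard ≤
      ∑ j ∈ Finset.range (n + 1), 576 * (2 ^ (2 * (n - j)) * 2 ^ j) := by
    refine Finset.sum_le_sum fun j _ => ?_
    rw [Set.ncard_prod]
    calc (ball S (2 * (n - j))).ncard * (ball S j).ncard
        ≤ (24 * 2 ^ (2 * (n - j))) * (24 * 2 ^ j) :=
          Nat.mul_le_mul (ball_card_le _) (ball_card_le _)
      _ = 576 * (2 ^ (2 * (n - j)) * 2 ^ j) := by ring
  have h3 := geom n
  rw [← Finset.mul_sum] at h2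
  have h4 := Nat.zero_le (2 ^ n)
  linarith

theorem mem_ball_X (n : ℕ) (a : Lamp) (ha : a ∈ ball P n) : (a, (1 : Lamp)) ∈ ball X n := by
  obtain ⟨l, hl, hx, rfl⟩ := ha
  refine ⟨l.map (fun x => (x, (1 : Lamp))), by simpa using hl, ?_, ?_⟩
  · intro y hy
    rw [List.mem_map] at hy
    obtain ⟨x, hx1, rfl⟩ := hy
    rcases hx x hx1 with h | h
    · left; simp [X, h]
    · right; simp [X, h]
  · exact List.prod_hom l (MonoidHom.inl Lamp Lamp)

theorem mem_ball_Y (n : ℕ) (b : Lamp) (hb : b ∈ ball P n) : ((1 : Lamp), b) ∈ ball Y n := by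
  obtain ⟨l, hl, hx, rfl⟩ := hb
  refine ⟨l.map (fun x => ((1 : Lamp), x)), by simpa using hl, ?_, ?_⟩
  · intro y hy
    rw [List.mem_map] at hy
    obtain ⟨x, hx1, rfl⟩ := hy
    rcases hx x hx1 with h | h
    · left; simp [Y, h]
    · right; simp [Y, h]
  · exact List.prod_hom l (MonoidHom.inr Lamp Lamp)

theorem card_pow (n : ℕ) : ((Finset.Ico (0 : ℤ) ((2 * n : ℕ) : ℤ)).powerset).card = 4 ^ n := by
  rw [Finset.card_powerset, Int.card_Ico]
  have : (((2 * n : ℕ) : ℤ) - 0).toNat = 2 * n := by omega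
  rw [this, pow_mul]; norm_num

/-- Many twisted classes for the first generating set. -/
theorem classes_X_ge (n : ℕ) : 4 ^ n ≤ (classes phi X n).ncard := by
  classical
  have hsub : (fun A : Finset ℤ => twistedClass phi ((⟨A, ((2 * n : ℕ) : ℤ)⟩ : Lamp), (1 : Lamp))) ''
      ((Finset.Ico (0 : ℤ) ((2 * n : ℕ) : ℤ)).powerset : Set (Finset ℤ)) ⊆ classes phi X n := by
    rintro c ⟨A, hA, rfl⟩
    refine ⟨_, mem_ball_X n _ (mem_ball_P n A ?_), rfl⟩
    exact Finset.mem_powerset.1 (Finset.mem_coe.1 hA)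
  have hinj : Set.InjOn (fun A : Finset ℤ =>
      twistedClass phi ((⟨A, ((2 * n : ℕ) : ℤ)⟩ : Lamp), (1 : Lamp)))
      ((Finset.Ico (0 : ℤ) ((2 * n : ℕ) : ℤ)).powerset : Set (Finset ℤ)) := by
    intro A hA B hB hAB
    have hA' := Finset.mem_powerset.1 (Finset.mem_coe.1 hA)
    have hB' := Finset.mem_powerset.1 (Finset.mem_coe.1 hB)
    have h1 : ((⟨A, ((2 * n : ℕ) : ℤ)⟩ : Lamp), (1 : Lamp)) ∈
        twistedClass phi ((⟨B, ((2 * n : ℕ) : ℤ)⟩ : Lamp), (1 : Lamp)) := by
      have := mem_twistedClass_self phi ((⟨A, ((2 * n : ℕ) : ℤ)⟩ : Lamp), (1 : Lamp))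
      simp only at hAB
      rw [hAB] at this
      exact this
    obtain ⟨z, hz⟩ := h1
    have hz1 := congrArg Prod.fst hz
    rw [phi_apply] at hz1
    simp only [Prod.fst_mul, Prod.fst_inv] at hz1
    exact inj_classes (2 * n) A B hA' hB' z.1 hz1
  calc 4 ^ n = ((Finset.Ico (0 : ℤ) ((2 * n : ℕ) : ℤ)).powerset : Set (Finset ℤ)).ncard := by
        rw [Set.ncard_coe_finset, card_pow]
    _ = _ := hinj.ncard_image.symm
    _ ≤ _ := Set.ncard_le_ncard hsub (classes_finite phi X n)

/-- Size of the ball for the second generating set. -/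
theorem ball_Y_ge (n : ℕ) : 4 ^ n ≤ (ball Y n).ncard := by
  classical
  have hsub : (fun A : Finset ℤ => ((1 : Lamp), (⟨A, ((2 * n : ℕ) : ℤ)⟩ : Lamp))) ''
      ((Finset.Ico (0 : ℤ) ((2 * n : ℕ) : ℤ)).powerset : Set (Finset ℤ)) ⊆ ball Y n := by
    rintro c ⟨A, hA, rfl⟩
    exact mem_ball_Y n _ (mem_ball_P n A (Finset.mem_powerset.1 (Finset.mem_coe.1 hA)))
  have hinj : Set.InjOn (fun A : Finset ℤ => ((1 : Lamp), (⟨A, ((2 * n : ℕ) : ℤ)⟩ : Lamp)))
      ((Finset.Ico (0 : ℤ) ((2 * n : ℕ) : ℤ)).powerset : Set (Finset ℤ)) := by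
    intro A _ B _ hAB
    exact congrArg (fun g : Lamp × Lamp => g.2.A) hAB
  calc 4 ^ n = ((Finset.Ico (0 : ℤ) ((2 * n : ℕ) : ℤ)).powerset : Set (Finset ℤ)).ncard := by
        rw [Set.ncard_coe_finset, card_pow]
    _ = _ := hinj.ncard_image.symm
    _ ≤ _ := Set.ncard_le_ncard hsub (ball_finite Y n)

/-- Few twisted classes for the second generating set. -/
theorem classes_Y_le (n : ℕ) : (classes phi Y n).ncard ≤ 24 * 2 ^ n := by
  have hS : ∀ x : Lamp, (x ∈ S ∨ x⁻¹ ∈ S) → x ∈ ball S 1 := by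
    intro x hx
    exact ⟨[x], by simp, by simpa using hx, by simp⟩
  have hsub : classes phi Y n ⊆ (fun a : Lamp => twistedClass phi (a, (1 : Lamp))) '' ball S n := by
    rintro c ⟨g, hg, rfl⟩
    obtain ⟨j, hj, h1, h2⟩ := ball_prod S P 1 2 hS P_sub_ball n g hg
    refine ⟨g.1, ball_mono S (by rw [one_mul]; omega) h1, ?_⟩
    simp only
    ext x
    constructor
    · rintro ⟨z, rfl⟩
      refine ⟨(z.1, z.2 * g.2⁻¹), ?_⟩
      simp only [phi_apply]
      ext1 <;> simp
    · rintro ⟨z, rfl⟩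
      refine ⟨(z.1, z.2 * g.2), ?_⟩
      simp only [phi_apply]
      ext1 <;> simp
  refine (Set.ncard_le_ncard hsub ((ball_finite S n).image _)).trans ?_
  exact (Set.ncard_image_le (ball_finite S n)).trans (ball_card_le n)

theorem ratio_le_one {G : Type} [Group G] (φ : G →* G) (X : Finset G) (n : ℕ) :
    ((classes φ X n).ncard : ℝ) / ((ball X n).ncard : ℝ) ≤ 1 := by
  have h := ball_ncard_pos X n
  rw [div_le_one (by exact_mod_cast h)]
  exact_mod_cast classes_le φ X n

theorem tcr_X_pos : 0 < tcr phi X := by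
  have h : (1 : ℝ) / 1152 ≤ tcr phi X := by
    unfold tcr
    refine le_limsup_of_frequently_le (Frequently.of_forall fun n => ?_) ?_
    · have h1 : (0 : ℝ) < ((ball X n).ncard : ℝ) := by exact_mod_cast ball_ncard_pos X n
      rw [div_le_div_iff₀ (by norm_num) h1]
      have h2 : ((ball X n).ncard : ℝ) ≤ 1152 * 4 ^ n := by exact_mod_cast ball_X_card_le n
      have h3 : (4 : ℝ) ^ n ≤ ((classes phi X n).ncard : ℝ) := by exact_mod_cast classes_X_ge n
      linarith
    · exact ⟨1, by simp only [eventually_map]; exact Eventually.of_forall (ratio_le_one phi X)⟩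
  linarith [show (0 : ℝ) < 1 / 1152 by norm_num]

theorem tcr_Y_zero : tcr phi Y = 0 := by
  unfold tcr
  apply Tendsto.limsup_eq
  have hlim : Tendsto (fun n : ℕ => 24 * (1 / 2 : ℝ) ^ n) atTop (𝓝 0) := by
    have := (tendsto_pow_atTop_nhds_zero_of_lt_one (r := (1 / 2 : ℝ)) (by norm_num)
      (by norm_num)).const_mul 24
    simpa using this
  refine squeeze_zero (fun n => by positivity) (fun n => ?_) hlim
  have h1 : (0 : ℝ) < ((ball Y n).ncard : ℝ) := by exact_mod_cast ball_ncard_pos Y n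
  rw [div_le_iff₀ h1]
  have h2 : (4 : ℝ) ^ n ≤ ((ball Y n).ncard : ℝ) := by exact_mod_cast ball_Y_ge n
  have h3 : ((classes phi Y n).ncard : ℝ) ≤ 24 * 2 ^ n := by exact_mod_cast classes_Y_le n
  have h4 : (24 : ℝ) * 2 ^ n = 24 * (1 / 2) ^ n * 4 ^ n := by
    rw [mul_assoc, ← mul_pow]; norm_num
  calc ((classes phi Y n).ncard : ℝ) ≤ 24 * 2 ^ n := h3
    _ = 24 * (1 / 2) ^ n * 4 ^ n := h4
    _ ≤ 24 * (1 / 2) ^ n * ((ball Y n).ncard : ℝ) := by gcongr

/-- There are a finitely generated group `G`, an endomorphism `φ` of `G` and two finite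
generating sets `X`, `Y` of `G` for which the `φ`-twisted conjugacy ratios differ. -/
theorem result : ∃ (G : Type) (_ : Group G) (φ : G →* G) (X Y : Finset G),
    Subgroup.closure (X : Set G) = ⊤ ∧ Subgroup.closure (Y : Set G) = ⊤ ∧
    0 < tcr φ X ∧ tcr φ Y = 0 :=
  ⟨Lamp × Lamp, inferInstance, phi, X, Y, gen_aux P S P_gen S_gen, gen_aux S P S_gen P_gen,
    tcr_X_pos, tcr_Y_zero⟩

end Pool.Agent.Results.MP_91bf1e_al.TwistedRatioDepends
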